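import Mathlib
import Pool.Agent.H.MP_6c6b5e_an.C

namespace Pool.Agent.Results.MP_6c6b5e_an.Glimm

theorem result (A B : Type*) [CStarAlgebra A] [CStarAlgebra B] (T : A →ₗ[ℂ] B)
    (h1 : T 1 = 1) (hs : Function.Surjective T)
    (hr : ∀ x : A, spectralRadius ℂ (T x) = spectralRadius ℂ x)
    (m : Ideal (Subring.center A)) (hm : m.IsMaximal) :
    T '' closure (TwoSidedIdeal.span (Subtype.val '' (m : Set (Subring.center A))) : Set A) ⊆
      closure (TwoSidedIdeal.span (T '' (Subtype.val '' (m : Set (Subring.center A)))) :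
        Set B) := by
  rintro _ ⟨x, hx, rfl⟩
  refine Pool.Agent.H.MP_6c6b5e_an.main T h1 hs hr ⟨?_, ?_, ?_, ?_⟩ hx
  · rintro _ ⟨z, -, rfl⟩ a
    exact Subring.mem_center_iff.1 z.2 a
  · exact ⟨0, m.zero_mem, rfl⟩
  · rintro _ ⟨z, hz, rfl⟩ _ ⟨w, hw, rfl⟩
    exact ⟨z + w, m.add_mem hz hw, rfl⟩
  · rintro _ ⟨z, hz, rfl⟩ w hw
    exact ⟨⟨w, Subring.mem_center_iff.2 hw⟩ * z, m.mul_mem_left _ hz, rfl⟩

end Pool.Agent.Results.MP_6c6b5e_an.Glimm
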